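import Mathlib

namespace Pool.Agent.Results.MP_89f45c_al.Finitesatz
open Finset

variable {F : Type} [Field F] {n : ℕ} (σ : F ≃+* F)

/-- multiplication of `F[x_1,…,x_n; σ]`: `(a x^k)(b x^l) = a σ^{|k|}(b) x^{k+l}` -/
noncomputable def mul (f g : (Fin n →₀ ℕ) →₀ F) : (Fin n →₀ ℕ) →₀ F :=
  f.sum fun k a => g.sum fun l b => Finsupp.single (k + l) (a * σ^[∑ i, k i] b)

def IsLeftIdeal (J : AddSubgroup ((Fin n →₀ ℕ) →₀ F)) : Prop := ∀ f, ∀ g ∈ J, mul σ f g ∈ J

/-- the `σ`-affine space -/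
def Aff : Set (Fin n → F) := {a | ∀ i j, i ≠ j → σ (a j) * a i = σ (a i) * a j}

def N (a : F) : ℕ → F
  | 0 => 1
  | k + 1 => σ^[k] a * N a k

def evMon (k : Fin n →₀ ℕ) (a : Fin n → F) : F := ∏ i, σ^[∑ j ∈ Iio i, k j] (N σ (a i) (k i))

def ev (f : (Fin n →₀ ℕ) →₀ F) (a : Fin n → F) : F := f.sum fun k c => c * evMon σ k a

def V (J : Set ((Fin n →₀ ℕ) →₀ F)) : Set (Fin n → F) := {a | a ∈ Aff σ ∧ ∀ f ∈ J, ev σ f a = 0}

def I (S : Set (Fin n → F)) : Set ((Fin n →₀ ℕ) →₀ F) := {f | ∀ a ∈ S, ev σ f a = 0}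

lemma N_succ (a : F) (k : ℕ) : N σ a (k + 1) = σ (N σ a k) * a := by
  induction k with
  | zero => simp [N]
  | succ k ih =>
    rw [N, ih]
    conv_rhs => rw [← ih, N, map_mul]
    rw [Function.iterate_succ_apply', mul_assoc]

lemma it_mul (m : ℕ) (x y : F) : σ^[m] (x * y) = σ^[m] x * σ^[m] y := by
  induction m with
  | zero => rfl
  | succ m ih => simp only [Function.iterate_succ_apply', ih, map_mul]

lemma N_comm (a b : F) (h : σ b * a = σ a * b) (k : ℕ) :
    N σ a k * σ^[k] b = σ (N σ a k) * b := by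
  induction k with
  | zero => simp [N]
  | succ k ih =>
    have := congrArg σ^[k] h
    rw [it_mul, it_mul] at this
    rw [N, map_mul, Function.iterate_succ_apply, ← Function.iterate_succ_apply' σ,
      Function.iterate_succ_apply]
    linear_combination (N σ a k) * this + σ^[k] (σ a) * ih

/-- ordered product over a list -/
def E : List (F × ℕ) → F
  | [] => 1
  | x :: l => N σ x.1 x.2 * σ^[x.2] (E l)

lemma ev_succ (k : Fin (n + 1) →₀ ℕ) (a : Fin (n + 1) → F) :
    evMon σ k a = N σ (a 0) (k 0) * σ^[k 0] (evMon σ k.tail fun i => a i.succ) := by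
  have hp : ∀ (m : ℕ) (f : Fin n → F), σ^[m] (∏ i, f i) = ∏ i, σ^[m] (f i) := by
    intro m f
    induction m with
    | zero => rfl
    | succ m ih => simp only [Function.iterate_succ_apply', ih, map_prod]
  unfold evMon
  rw [Fin.prod_univ_succ, hp]
  congr 1
  refine prod_congr rfl fun i _ => ?_
  rw [← Function.iterate_add_apply]
  congr 2
  have hI : ∀ m (i : Fin m) (g : Fin m → ℕ), ∑ j ∈ Iio i, g j = ∑ j, if j < i then g j else 0 := by
    intro m i g; rw [← sum_filter]; congr 1; ext; simp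
  rw [hI, hI, Fin.sum_univ_succ]
  simp [Finsupp.tail_apply]

lemma key (n : ℕ) : ∀ (a : Fin n → F) (_ : a ∈ Aff σ) (k : Fin n →₀ ℕ) (i : Fin n),
    evMon σ (Finsupp.single i 1 + k) a = σ (evMon σ k a) * a i := by
  induction n with
  | zero => intro a _ k i; exact i.elim0
  | succ n ih =>
    intro a ha k i
    rw [ev_succ, ev_succ, map_mul]
    refine Fin.cases ?_ (fun i => ?_) i
    · have : (Finsupp.single (0 : Fin (n + 1)) 1 + k).tail = k.tail := by
        ext j; simp [Finsupp.tail_apply]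
      rw [this]
      simp only [Finsupp.coe_add, Pi.add_apply, Finsupp.single_eq_same, add_comm 1]
      rw [N_succ, Function.iterate_succ_apply']; ring
    · have : (Finsupp.single i.succ 1 + k).tail = Finsupp.single i 1 + k.tail := by
        ext j; simp [Finsupp.tail_apply, Finsupp.single_apply]
      rw [this, ih _ (fun p q h => ha _ _ (by simpa using h))]
      have h0 : (Finsupp.single i.succ 1 + k : Fin (n + 1) →₀ ℕ) 0 = k 0 := by
        simp [Finsupp.single_apply]
      have := N_comm σ (a 0) (a i.succ) (ha _ _ (Fin.succ_ne_zero i).symm) (k 0)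
      rw [h0, it_mul, ← Function.iterate_succ_apply σ, Function.iterate_succ_apply']
      linear_combination (σ (σ^[k 0] (evMon σ k.tail fun i => a i.succ))) * this

lemma ev_zero (a : Fin n → F) : evMon σ 0 a = 1 := by
  have : ∀ m, σ^[m] 1 = 1 := fun m => Function.iterate_fixed (map_one σ) m
  simp [evMon, N, this]

/-- evaluation as a linear map into functions on the affine space -/
noncomputable def evL : ((Fin n →₀ ℕ) →₀ F) →ₗ[F] (Aff σ (n := n) → F) :=
  Finsupp.linearCombination F fun k a => evMon σ k a.1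

lemma evL_apply (f : (Fin n →₀ ℕ) →₀ F) (a : Aff σ) : evL σ f a = ev σ f a.1 := by
  simp [evL, ev, Finsupp.linearCombination_apply, Finsupp.sum]

def T (i : Fin n) (φ : Aff σ (n := n) → F) : Aff σ (n := n) → F := fun a => σ (φ a) * a.1 i

lemma evL_x (i : Fin n) (g : (Fin n →₀ ℕ) →₀ F) :
    evL σ (mul σ (Finsupp.single (Finsupp.single i 1) 1) g) = T σ i (evL σ g) := by
  unfold mul
  rw [Finsupp.sum_single_index (by simp)]
  funext a
  rw [T, evL_apply σ g, ev]
  simp only [Finsupp.sum, map_sum, evL, Finsupp.linearCombination_single, Finset.sum_apply, sum_mul]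
  refine sum_congr rfl fun k _ => ?_
  simp [key σ n a.1 a.2, Finsupp.single_apply, mul_assoc]

lemma ind {P : (Fin n →₀ ℕ) → Prop} (h0 : P 0) (h1 : ∀ i k, P k → P (Finsupp.single i 1 + k))
    (k : Fin n →₀ ℕ) : P k := by
  induction k using Finsupp.induction with
  | zero => exact h0
  | single_add i m k _ _ ih =>
    clear * - h1 ih
    induction m with
    | zero => simpa using ih
    | succ m ih2 => rw [add_comm m, Finsupp.single_add, add_assoc]; exact h1 _ _ ih2

lemma mul_c (c : F) (g : (Fin n →₀ ℕ) →₀ F) : mul σ (Finsupp.single 0 c) g = c • g := by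
  unfold mul
  rw [Finsupp.sum_single_index (by simp)]
  conv_rhs => rw [← g.sum_single, Finsupp.smul_sum]
  simp

lemma hyper {X : Type} [Fintype X] [DecidableEq X] (U : Submodule F (X → F)) (φ : X → F)
    (hφ : φ ∉ U) : ∃ (S : Finset X) (a : X) (ψ : (X → F) →ₗ[F] F), ψ φ ≠ 0 ∧
    ψ (Pi.single a 1) = 1 ∧ ∀ w, ψ w = 0 ↔ ∃ u ∈ U, ∀ x ∉ S, w x = u x := by
  classical
  let W : Finset X → Submodule F (X → F) := fun S =>
    { carrier := {w | ∃ u ∈ U, ∀ x ∉ S, w x = u x}
      add_mem' := by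
        rintro _ _ ⟨u, hu, h⟩ ⟨v, hv, h'⟩
        exact ⟨u + v, U.add_mem hu hv, fun x hx => by simp [h x hx, h' x hx]⟩
      zero_mem' := ⟨0, U.zero_mem, by simp⟩
      smul_mem' := by
        rintro c _ ⟨u, hu, h⟩
        exact ⟨c • u, U.smul_mem c hu, fun x hx => by simp [h x hx]⟩ }
  obtain ⟨S, hS, hmax⟩ := (univ.filter fun S : Finset X => φ ∉ W S).exists_maximal
    ⟨∅, by
      simp only [mem_filter, mem_univ, true_and]
      rintro ⟨u, hu, h⟩
      exact hφ (funext (fun x => h x (by simp)) ▸ hu)⟩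
  simp only [mem_filter, mem_univ, true_and] at hS hmax
  obtain ⟨ψ, h1, h2⟩ := (W S).exists_le_ker_of_notMem hS
  have h3 : ∀ x, ∃ c : F, Pi.single x 1 - c • φ ∈ W S := by
    intro x
    by_cases hx : x ∈ S
    · exact ⟨0, 0, U.zero_mem, fun y hy => by
        simp [Pi.single_apply, (ne_of_mem_of_not_mem hx hy).symm]⟩
    · have : φ ∈ W (insert x S) := by
        by_contra hc
        exact hx (hmax hc (subset_insert _ _) (mem_insert_self _ _))
      obtain ⟨u, hu, h⟩ := this
      have hne : φ x - u x ≠ 0 := by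
        intro h0
        refine hS ⟨u, hu, fun y hy => ?_⟩
        by_cases hyx : y = x
        · rw [hyx]; exact sub_eq_zero.1 h0
        · exact h y (by simp [hyx, hy])
      refine ⟨(φ x - u x)⁻¹, -(φ x - u x)⁻¹ • u, U.smul_mem _ hu, fun y hy => ?_⟩
      by_cases hyx : y = x
      · subst hyx; simp; field_simp; ring
      · simp [hyx, h y (by simp [hyx, hy])]
  have h4 : ∀ w, ∃ c : F, w - c • φ ∈ W S := by
    intro w
    choose c hc using h3
    refine ⟨∑ x, w x * c x, ?_⟩
    have := (W S).sum_mem (t := univ) fun x _ => (W S).smul_mem (w x) (hc x)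
    convert this using 1
    simp only [smul_sub, sum_sub_distrib, smul_smul, sum_smul]
    congr 1
    funext y; simp [Finset.sum_apply, Pi.single_apply]
  obtain ⟨a, ha⟩ : ∃ a, ψ (Pi.single a 1) ≠ 0 := by
    by_contra hc
    push Not at hc
    apply h1
    rw [LinearMap.pi_apply_eq_sum_univ]
    refine sum_eq_zero fun x _ => ?_
    have : (fun j => if x = j then (1 : F) else 0) = Pi.single x 1 := by
      funext j; simp [Pi.single_apply, eq_comm]
    rw [this, hc, smul_zero]
  refine ⟨S, a, (ψ (Pi.single a 1))⁻¹ • ψ, by simp [ha, h1], by simp [ha], fun w => ?_⟩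
  simp only [LinearMap.smul_apply, smul_eq_mul, mul_eq_zero, inv_eq_zero, ha, false_or]
  refine ⟨fun h => ?_, fun h => h2 (show w ∈ W S from h)⟩
  obtain ⟨c, hc⟩ := h4 w
  have : ψ (w - c • φ) = 0 := h2 hc
  simp only [map_sub, map_smul, h, smul_eq_mul, zero_sub, neg_eq_zero, mul_eq_zero, h1,
    or_false] at this
  exact (by simpa [this] using hc : w ∈ W S)

theorem result (F : Type) [Field F] [Finite F] (σ : F ≃+* F) (n : ℕ)
    (J : AddSubgroup ((Fin n →₀ ℕ) →₀ F)) (hJ : IsLeftIdeal σ J) :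
    I σ (V σ (J : Set ((Fin n →₀ ℕ) →₀ F))) = {f | ∃ g ∈ J, ∃ h ∈ I σ (Aff σ), f = g + h} := by
  classical
  haveI : Fintype (Aff σ (n := n)) := Fintype.ofFinite _
  ext f
  constructor
  swap
  · rintro ⟨g, hg, h, hh, rfl⟩ a ha
    have := congrFun (map_add (evL σ) g h) ⟨a, ha.1⟩
    simp only [evL_apply, Pi.add_apply] at this
    rw [this, ha.2 g hg, hh a ha.1, add_zero]
  intro hf
  let J' : Submodule F ((Fin n →₀ ℕ) →₀ F) :=
    { J with smul_mem' := fun c g hg => mul_c σ c g ▸ hJ _ g hg }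
  by_cases hφ : evL σ f ∈ J'.map (evL σ)
  · obtain ⟨g, hg, h⟩ := hφ
    refine ⟨g, hg, f - g, fun a ha => ?_, by simp⟩
    rw [← evL_apply σ _ ⟨a, ha⟩, map_sub, h, sub_self]; rfl
  exfalso
  obtain ⟨S, a, ψ, h1, h2, h3⟩ := hyper _ _ hφ
  have hT : ∀ i w, ψ (T σ i w) = σ (ψ w) * a.1 i := by
    intro i w
    obtain ⟨_, ⟨g, hg, rfl⟩, hu⟩ := (h3 (w - ψ w • Pi.single a 1)).1 (by simp [h2])
    have : ψ (T σ i w - (σ (ψ w) * a.1 i) • Pi.single a 1) = 0 := by
      refine (h3 _).2 ⟨_, ⟨_, hJ (Finsupp.single (Finsupp.single i 1) 1) g hg, rfl⟩, fun x hx => ?_⟩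
      rw [evL_x, T, ← hu x hx]
      by_cases hxa : x = a
      · subst hxa; simp [T]; ring
      · simp [T, hxa]
    simpa [h2, sub_eq_zero] using this
  have hx : ∀ (i : Fin n) k, evL σ (Finsupp.single (Finsupp.single i 1 + k) 1) =
      T σ i (evL σ (Finsupp.single k 1)) := by
    intro i k; funext x; simp [evL, T, key σ n x.1 x.2]
  set c := ψ (evL σ (Finsupp.single 0 1)) with hc
  let b : Fin n → F := fun i => σ c * a.1 i / c
  have hb : b ∈ Aff σ := by
    intro i j hij
    have := a.2 i j hij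
    simp only [b, map_div₀, map_mul]
    linear_combination (σ (σ c) / σ c * (σ c / c)) * this
  have hmon : ∀ k, ψ (evL σ (Finsupp.single k 1)) = evMon σ k b * c := by
    intro k
    induction k using ind with
    | h0 => simp [ev_zero, hc]
    | h1 i k ih =>
      rw [hx, hT, ih, key σ n b hb, map_mul]
      by_cases h0 : c = 0
      · simp [h0]
      · simp only [b]; field_simp
  have hall : ∀ g, ψ (evL σ g) = ev σ g b * c := by
    intro g
    conv_lhs => rw [← g.sum_single]
    simp only [Finsupp.sum, map_sum, ev, sum_mul]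
    refine sum_congr rfl fun k _ => ?_
    rw [← mul_one (g k), ← smul_eq_mul, ← Finsupp.smul_single, map_smul, map_smul, hmon]
    simp [mul_assoc]
  have hc0 : c ≠ 0 := fun h => h1 (by rw [hall, h, mul_zero])
  apply h1
  rw [hall, hf b ⟨hb, fun g hg => ?_⟩, zero_mul]
  have := (h3 (evL σ g)).2 ⟨_, ⟨g, hg, rfl⟩, fun _ _ => rfl⟩
  rw [hall] at this
  exact (mul_eq_zero.1 this).resolve_right hc0

end Pool.Agent.Results.MP_89f45c_al.Finitesatz
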